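import Pool.Agent.H62.UN.Targets

/-!
# The row FIN: finite support on a chart
-/

set_option autoImplicit false

namespace Pool.Agent.H16.UNT

open Polynomial Pool.Agent.H17.UN Pool.Agent.H62.UN

section

variable {k E : Type} [Field k] [Field E] [Algebra k E]

theorem val_one {o : E → ℤ} (h : IsVal o) : o 1 = 0 := by
  have h1 := h.mul 1 1 one_ne_zero one_ne_zero
  rw [mul_one] at h1
  linarith

/-- the centre of a valuation -/
def ctrI (A : Subalgebra k E) (o : E → ℤ) (h : IsVal o) (hc : Ctr A o) : Ideal A where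
  carrier := {x | (x : E) = 0 ∨ 0 < o (x : E)}
  zero_mem' := Or.inl rfl
  add_mem' := by
    intro x y hx hy
    by_cases h0 : ((x + y : A) : E) = 0
    · exact Or.inl h0
    refine Or.inr ?_
    rcases hx with hx | hx
    · rcases hy with hy | hy
      · exact absurd (by rw [Subalgebra.coe_add, hx, hy, add_zero]) h0
      · rw [Subalgebra.coe_add, hx, zero_add]
        exact hy
    · rcases hy with hy | hy
      · rw [Subalgebra.coe_add, hy, add_zero]
        exact hx
      · have hx0 : (x : E) ≠ 0 := by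
          intro h1
          rw [h1, h.zero] at hx
          exact lt_irrefl _ hx
        have hy0 : (y : E) ≠ 0 := by
          intro h1
          rw [h1, h.zero] at hy
          exact lt_irrefl _ hy
        rw [Subalgebra.coe_add] at h0 ⊢
        exact lt_of_lt_of_le (lt_min hx hy) (h.add _ _ hx0 hy0 h0)
  smul_mem' := by
    intro c x hx
    have hcx : ((c • x : A) : E) = (c : E) * x := rfl
    by_cases h0 : ((c • x : A) : E) = 0
    · exact Or.inl h0
    refine Or.inr ?_
    rw [hcx] at h0 ⊢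
    have hc0 : (c : E) ≠ 0 := left_ne_zero_of_mul h0
    have hx0 : (x : E) ≠ 0 := right_ne_zero_of_mul h0
    rcases hx with hx | hx
    · exact absurd hx hx0
    · rw [h.mul _ _ hc0 hx0]
      have h1 := hc.nn c c.2
      linarith

theorem mem_ctrI {A : Subalgebra k E} {o : E → ℤ} (h : IsVal o) (hc : Ctr A o) (x : A) :
    x ∈ ctrI A o h hc ↔ (x : E) = 0 ∨ 0 < o (x : E) := Iff.rfl

theorem ctrI_prime {A : Subalgebra k E} {o : E → ℤ} (h : IsVal o) (hc : Ctr A o) :
    (ctrI A o h hc).IsPrime := by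
  refine ⟨?_, ?_⟩
  · rw [Ne, Ideal.eq_top_iff_one, mem_ctrI]
    rintro (h1 | h1)
    · exact one_ne_zero h1
    · rw [Subalgebra.coe_one, val_one h] at h1
      exact lt_irrefl _ h1
  · intro x y hxy
    rw [mem_ctrI] at hxy ⊢
    rw [mem_ctrI]
    by_cases hx : (x : E) = 0
    · exact Or.inl (Or.inl hx)
    by_cases hy : (y : E) = 0
    · exact Or.inr (Or.inl hy)
    rw [Subalgebra.coe_mul] at hxy
    rcases hxy with h1 | h1
    · exact absurd h1 (mul_ne_zero hx hy)
    · rw [h.mul _ _ hx hy] at h1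
      rcases lt_or_ge 0 (o (x : E)) with h2 | h2
      · exact Or.inl (Or.inr h2)
      · refine Or.inr (Or.inr ?_)
        linarith

theorem fin_one (hCTQ : T_CTQ) (hUNQ : UNQ) (A : Subalgebra k E) [IsNoetherianRing A] (g : A)
    (hg : (g : E) ≠ 0) : {o : E → ℤ | IsVal o ∧ Ctr A o ∧ 0 < o (g : E)}.Finite := by
  classical
  obtain ⟨F, hF⟩ : ∃ F : (E → ℤ) → Ideal A, ∀ (o : E → ℤ) (h : IsVal o) (hc : Ctr A o),
      F o = ctrI A o h hc := by
    refine ⟨fun o => if h : IsVal o ∧ Ctr A o then ctrI A o h.1 h.2 else ⊥, fun o h hc => ?_⟩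
    simp only
    rw [dif_pos ⟨h, hc⟩]
  have hfin : (Ideal.span {g} : Ideal A).minimalPrimes.Finite :=
    Ideal.finite_minimalPrimes_of_isNoetherianRing A _
  refine Set.Finite.of_injOn (f := F) ?_ ?_ hfin
  · rintro o ⟨h, hc, ho⟩
    rw [hF o h hc]
    refine ⟨⟨ctrI_prime h hc, ?_⟩, ?_⟩
    · rw [Ideal.span_singleton_le_iff_mem, mem_ctrI]
      exact Or.inr ho
    · rintro q ⟨hq, hgq⟩ hle x hx
      rw [Ideal.span_singleton_le_iff_mem] at hgq
      have h1 : ∀ a ∈ q, a ≠ 0 → 0 < o (a : E) := by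
        intro a ha ha0
        have h2 := hle ha
        rw [mem_ctrI] at h2
        rcases h2 with h2 | h2
        · exact absurd (Subtype.ext h2) ha0
        · exact h2
      have h2 := hCTQ k E A o h hc q hq ⟨g, hgq, fun h3 => hg (congrArg Subtype.val h3)⟩ h1
      rw [mem_ctrI] at hx
      rcases hx with hx | hx
      · have h3 : x = 0 := Subtype.ext hx
        rw [h3]
        exact q.zero_mem
      · exact h2 x hx
  · rintro o ⟨h, hc, ho⟩ o' ⟨h', hc', ho'⟩ heq
    rw [hF o h hc, hF o' h' hc'] at heq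
    refine hUNQ k E A o o' h h' hc hc' fun a ha hpos => ?_
    have h1 : (⟨a, ha⟩ : A) ∈ ctrI A o' h' hc' := by
      rw [mem_ctrI]
      exact Or.inr hpos
    rw [← heq, mem_ctrI] at h1
    rcases h1 with h1 | h1
    · have h2 : a = 0 := h1
      rw [h2, h'.zero] at hpos
      exact absurd hpos (lt_irrefl _)
    · exact h1

end

theorem pf_FIN : T_FIN := by
  intro hCTQ hUNQ k E _ _ _ A hN hfr f hf
  obtain ⟨a, ha, b, hb, hb0, hfab⟩ := hfr f
  have ha0 : a ≠ 0 := by
    intro h1
    rw [h1, zero_div] at hfab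
    exact hf hfab
  have h1 := fin_one hCTQ hUNQ A ⟨a, ha⟩ ha0
  have h2 := fin_one hCTQ hUNQ A ⟨b, hb⟩ hb0
  refine (h1.union h2).subset ?_
  rintro o ⟨h, hc, ho⟩
  have h3 : o a = o f + o b := by
    rw [← h.mul f b hf hb0, hfab, div_mul_cancel₀ a hb0]
  have h4 := hc.nn a ha
  have h5 := hc.nn b hb
  by_cases h6 : 0 < o a
  · exact Or.inl ⟨h, hc, h6⟩
  · refine Or.inr ⟨h, hc, ?_⟩
    change 0 < o b
    have h7 : o a = 0 := le_antisymm (not_lt.1 h6) h4
    rcases lt_or_eq_of_le h5 with h8 | h8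
    · exact h8
    · exact absurd (by linarith) ho

end Pool.Agent.H16.UNT
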